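import Pool.Agent.N245.DS.Geo

set_option autoImplicit false

/-! # Sublattices have finite index -/

namespace Pool.Agent.N327.DS

open Pool.Agent.N245.DS

lemma tr_apply (v z : ℂ) : tr v z = z + v := rfl

lemma tr_add (v w : ℂ) : tr (v + w) = tr v * tr w := by
  ext z
  have : (tr v * tr w) z = tr v (tr w z) := rfl
  rw [this, tr_apply, tr_apply, tr_apply]
  ring

/-- translations as a homomorphism -/
noncomputable def T : Multiplicative ℂ →* (ℂ ≃ᵢ ℂ) where
  toFun v := tr v.toAdd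
  map_one' := by
    ext z
    have : (1 : ℂ ≃ᵢ ℂ) z = z := rfl
    rw [this, tr_apply, toAdd_one, add_zero]
  map_mul' v w := by
    rw [toAdd_mul, tr_add]

lemma T_apply (v : ℂ) : T (Multiplicative.ofAdd v) = tr v := rfl

lemma tr_int (m : ℤ) (v : ℂ) : tr (m * v) = tr v ^ m := by
  rw [← T_apply v, ← map_zpow, ← ofAdd_zsmul, T_apply, zsmul_eq_mul]

lemma tr_neg (v : ℂ) : tr (-v) = (tr v)⁻¹ := by
  rw [← T_apply, ofAdd_neg, map_inv, T_apply]

lemma mem_lat (v w : ℂ) (m n : ℤ) : tr (m * v + n * w) ∈ lat v w := by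
  have h1 : tr v ∈ lat v w := Subgroup.subset_closure (Set.mem_insert _ _)
  have h2 : tr w ∈ lat v w :=
    Subgroup.subset_closure (Set.mem_insert_of_mem _ (Set.mem_singleton _))
  rw [tr_add, tr_int, tr_int]
  exact (lat v w).mul_mem ((lat v w).zpow_mem h1 m) ((lat v w).zpow_mem h2 n)

lemma lat_mem (v w : ℂ) {g : ℂ ≃ᵢ ℂ} (hg : g ∈ lat v w) : ∃ m n : ℤ, g = tr (m * v + n * w) := by
  refine Subgroup.closure_induction (p := fun g _ => ∃ m n : ℤ, g = tr (m * v + n * w))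
    ?_ ?_ ?_ ?_ hg
  · intro x hx
    rcases hx with rfl | hx
    · exact ⟨1, 0, by simp⟩
    · rw [Set.mem_singleton_iff] at hx
      exact ⟨0, 1, by simp [hx]⟩
  · refine ⟨0, 0, ?_⟩
    have h : tr 0 = 1 := map_one T
    rw [← h]
    congr 1
    push_cast
    ring
  · rintro x y _ _ ⟨m, n, rfl⟩ ⟨m', n', rfl⟩
    refine ⟨m + m', n + n', ?_⟩
    rw [← tr_add]
    push_cast
    congr 1
    ring
  · rintro x _ ⟨m, n, rfl⟩
    refine ⟨-m, -n, ?_⟩
    rw [← tr_neg]
    push_cast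
    congr 1
    ring

theorem sub : S_SUB := by
  intro v w v' w' h h' ⟨m1, n1, e1⟩ ⟨m2, n2, e2⟩
  have hle : lat v' w' ≤ lat v w := by
    unfold lat
    rw [Subgroup.closure_le]
    intro x hx
    rcases hx with rfl | hx
    · rw [e1]
      exact mem_lat v w m1 n1
    · rw [Set.mem_singleton_iff] at hx
      rw [hx, e2]
      exact mem_lat v w m2 n2
  refine ⟨hle, ?_⟩
  set D : ℤ := m1 * n2 - m2 * n1 with hD
  have hD0 : D ≠ 0 := by
    intro h0
    apply h'
    have h1 : (m1 : ℝ) * n2 - m2 * n1 = 0 := by exact_mod_cast h0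
    rw [e1, e2]
    simp only [Complex.add_re, Complex.add_im, Complex.mul_re, Complex.mul_im, Complex.intCast_re,
      Complex.intCast_im, zero_mul, sub_zero, add_zero]
    linear_combination (v.re * w.im - v.im * w.re) * h1
  have hv : (D : ℂ) * v = n2 * v' - n1 * w' := by
    rw [e1, e2, hD]
    push_cast
    ring
  have hw : (D : ℂ) * w = -m2 * v' + m1 * w' := by
    rw [e1, e2, hD]
    push_cast
    ring
  have hDm : ∀ a b : ℤ, tr ((D * a : ℤ) * v + (D * b : ℤ) * w) ∈ lat v' w' := by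
    intro a b
    have : ((D * a : ℤ) : ℂ) * v + (D * b : ℤ) * w =
        (a * n2 - b * m2 : ℤ) * v' + (b * m1 - a * n1 : ℤ) * w' := by
      push_cast
      linear_combination (a : ℂ) * hv + b * hw
    rw [this]
    exact mem_lat _ _ _ _
  unfold Subgroup.relIndex
  have hfin : Finite (lat v w ⧸ (lat v' w').subgroupOf (lat v w)) := by
    let f : Fin D.natAbs × Fin D.natAbs → lat v w ⧸ (lat v' w').subgroupOf (lat v w) :=
      fun p => QuotientGroup.mk ⟨tr (((p.1 : ℕ) : ℤ) * v + ((p.2 : ℕ) : ℤ) * w), mem_lat v w _ _⟩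
    refine Finite.of_surjective f ?_
    intro q
    obtain ⟨⟨g, hg⟩, rfl⟩ := QuotientGroup.mk_surjective q
    obtain ⟨m, n, rfl⟩ := lat_mem v w hg
    have key : ∀ x : ℤ, ∃ i : Fin D.natAbs, ∃ a : ℤ, x = ((i : ℕ) : ℤ) + D * a := by
      intro x
      have h1 : 0 ≤ x % D := Int.emod_nonneg _ hD0
      have h2 : x % D < D.natAbs := Int.emod_lt x hD0
      refine ⟨⟨(x % D).toNat, by omega⟩, x / D, ?_⟩
      simp only [Int.toNat_of_nonneg h1]
      exact (Int.emod_add_mul_ediv x D).symm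
    obtain ⟨i, a, ha⟩ := key m
    obtain ⟨j, b, hb⟩ := key n
    refine ⟨(i, j), ?_⟩
    rw [QuotientGroup.eq, Subgroup.mem_subgroupOf]
    have e : ((⟨tr ((((i : ℕ) : ℤ) : ℂ) * v + (((j : ℕ) : ℤ) : ℂ) * w), mem_lat v w _ _⟩ :
        lat v w)⁻¹ * ⟨tr (m * v + n * w), hg⟩ : lat v w).1 =
        tr ((D * a : ℤ) * v + (D * b : ℤ) * w) := by
      have : ((⟨tr ((((i : ℕ) : ℤ) : ℂ) * v + (((j : ℕ) : ℤ) : ℂ) * w), mem_lat v w _ _⟩ :
        lat v w)⁻¹ * ⟨tr (m * v + n * w), hg⟩ : lat v w).1 =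
        (tr ((((i : ℕ) : ℤ) : ℂ) * v + (((j : ℕ) : ℤ) : ℂ) * w))⁻¹ * tr (m * v + n * w) := rfl
      rw [this, ← tr_neg, ← tr_add, ha, hb]
      push_cast
      congr 1
      ring
    rw [e]
    exact hDm a b
  exact Subgroup.index_ne_zero_of_finite

end Pool.Agent.N327.DS
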